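import Pool.Agent.Run7.h16.MA.Gen
import Pool.Agent.Run7.h479.SO.Zeta

/-!
# The Tate conjectures for singular varieties generated by abelian varieties over finite fields with CM
fields abelian over the rational numbers

Over an algebraic closure of the field with `p` elements each abelian variety is isogenous to the
reduction of an abelian variety of CM type (Honda, Tate). So an abelian variety over the field with
`p ^ a` elements is modelled by `RedAV`: a finite product of CM types `(E i, Φ i)` with Weil numbers
`π i ∈ E i` that satisfy the formula of Shimura and Taniyama; its cohomology of degree `n`, with
coefficients in an algebraically closed field `Ω`, consists of the alternating `n`-forms on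
`Ω ⊗ H_1`, on which the Frobenius endomorphism acts by `π`.

Let `Z` be such an abelian variety, the product of simple factors `A i` of dimension `g i`, whose CM
fields `E i` are abelian over `ℚ`, such that (`HasAbelianFields`):

* if `g i ≥ 4` and `i' ≠ i`, the fields `E i` and `E i'` have only totally real common subfields (there
  is no condition on two factors of dimension at most three);
* if `g i ≥ 6`, the powers of `π i` generate `E i`, and no positive power of the norm of `π i` to a
  subfield `T` of `E i`, cyclic over `ℚ` and not totally real, is a product of elements of proper
  subfields of `T`; if `g i = 6` one exception `T` is allowed, an imaginary quadratic field in which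
  `p` splits (there is no condition on the norms of `π i` if `g i ≤ 5`).

Let `𝒞` (`IsAbelianFieldAV`) be the class of the abelian varieties `Y` that are, over an algebraic
closure, isogenous to a product of a supersingular abelian variety of any dimension and of powers of
the factors of such a `Z`; the cohomology of `Y` may contain many exotic Tate classes.

`Homology Ω V` are data of motivic homology `M X i j = H_i^M(X, ℚ(j)) = CH_j(X, i - 2 j) ⊗ ℚ` and of
`ℓ`-adic homology `E X i j = H_i(X, ℚ_ℓ(j))` (coefficients extended to `Ω`) of schemes `X` of finite
type over a finite field (the elements of `V`), with the Frobenius and the regulator. Let `𝒢` be the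
smallest class (`Generated`) of such schemes that contains those with the homology groups of abelian
varieties in `𝒞` (`IsOfAbelianField`), that is closed under direct summands of finite sums of twists
of motives, and that contains all of a closed subscheme `Z` of `X`, `X` and `X ∖ Z` if it contains
two of them. It contains for instance products of curves with Jacobians in `𝒞` (isogenous to
products of powers of the factors of one `Z`) and of open subsets of such curves, symmetric powers of
them, and the singular and the open varieties with a stratification by such varieties.

Let `𝒮` (`Spread`) be the smallest class of schemes that contains `𝒢`, all open subschemes (with an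
arbitrary complement) and all images under proper morphisms of its members, the schemes that are the
union of a closed and an open member, and the schemes whose motives are direct summands of sums of
twists of motives of members. For example it contains all (singular, open, reducible) varieties
dominated by varieties in `𝒢`.
**Then** (`SingularTate`)

* (Q1 (a)) for all `X` in `𝒮` and all `i` the map `cl_i ⊗ Ω` is surjective onto the space of the
  invariant elements of `H_(2 i)(X, ℚ_ℓ(i)) ⊗ Ω`, and the eigenvalue one is semisimple (`IsOnto T X i`);
* (Q1 (b)) for all `X` in `𝒢` and all `i` the group `CH_i(X) ⊗ ℚ` has finite dimension and `cl_i`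
  induces an isomorphism of `CH_i(X) ⊗ Ω = B_i(X) ⊗ Ω` with the space of the invariant elements
  (`IsIso T X i`);
* (Q2) for all `X` in `𝒢` and all `i ≥ 0` the order at `s = i` of
  `L(X, s) = det (1 - F q ^ (-s) | H^(2 i)_c(X, ℚ_ℓ)) ^ (-1)` is `- rank CH_i(X) = - rank B_i(X)`.

Here `k` is finite, so that `dim_a (k) = 0`, `U_0 = Spec k` and `L(X, s)` has one Euler factor; its
coefficients are moved to `ℂ` by an arbitrary homomorphism `τ : Ω → ℂ`. `IsCompactCoh T X q A` says
that `A` is the cohomology with compact support of `X`, with the operation of the Frobenius: the
group `H_i(X, ℚ_ℓ(j))` is the dual of `H^i_c(X, ℚ_ℓ(j))`.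

Properties of the theory of cycles that are used for the abelian varieties (`IsChow`,
`IsMotivic`): Poincaré duality, the formal properties of correspondences, the nilpotence of
homologically trivial correspondences (Kimura), the operation of the Frobenius endomorphism on higher
Chow groups, the vanishing of the higher rational `K`-groups of a finite field (Quillen), and the
algebraicity of the classes in `Alg` (theorems of Tate and Markman). The passage from the Tate
conjecture to all degrees and to the class `Generated` is due to Soulé, Geisser, Kahn and Jannsen; it
was formalized in the starting files and by helper117. The definitions of `SingularTate` for another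
class of abelian varieties and the orders of Euler factors are due to helper479
(`MP_4776b1_ag.VanishingSums`). The new part: the relations between the Frobenius eigenvalues of the
abelian varieties in `𝒞` are generated by elementary ones.
-/

set_option autoImplicit false

namespace Pool.Agent.Results.MP_4776b1_ag.AbelianFields

open Module Pool.Agent.W495.TA Pool.Agent.W495.FM Run7.h16.MA Pool.Agent.Run7.h479.SO

/-- Q1 (a) for the class `Spread`, and Q1 (b) and Q2 for the class `Generated` of schemes over the
field with `q` elements. -/
def SingularTate (p : ℕ) [Fact p.Prime] (ν : PadicAlgCl p ≃+* ℂ) : Prop :=
  ∀ (Ω : Type) [Field Ω] [IsAlgClosed Ω] [CharZero Ω] (V : Type) (T : Homology Ω V),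
    IsHomology T → HasWeights T →
      (∀ X : V, Spread T (Generated T (IsOfAbelianField p ν T)) X → ∀ i : ℤ, IsOnto T X i) ∧
      ∀ X : V, Generated T (IsOfAbelianField p ν T) X →
        (∀ i : ℤ, Module.Finite ℚ (T.M X (2 * i) i) ∧ IsIso T X i) ∧
        ∀ (q : ℕ) (A : CompactCoh Ω) (τ : Ω →+* ℂ), 1 < q → IsCompactCoh T X q A → ∀ i : ℕ,
          meromorphicOrderAt (fun s => (eulerFactor A τ q (2 * i) s)⁻¹) (i : ℂ) =
            ((-(finrank ℚ (T.M X (2 * i) i) : ℤ) : ℤ) : WithTop ℤ)

/-- **The Tate conjectures for singular varieties generated by abelian varieties over finite
fields with CM fields abelian over the rational numbers.** -/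
theorem result (p : ℕ) [Fact p.Prime] (ν : PadicAlgCl p ≃+* ℂ) : SingularTate p ν := by
  intro Ω _ _ _ V T hT hW
  refine ⟨fun _ hX i => onto_spread_field hT hW hX i, fun X hX => ?_⟩
  have hTB := tb_field hT hX
  refine ⟨fun i => ⟨finite_M hT hTB _ _, hTB.iso hT i⟩, fun q A τ hq hA i => ?_⟩
  obtain ⟨h1, h2⟩ := order_factor hT hq hA hTB τ (2 * i) i
  have h3 := meromorphicOrderAt_inv (f := eulerFactor A τ q (2 * i)) (x := ((i : ℤ) : ℂ))
  rw [h2] at h3
  push_cast at h3
  exact h3

end Pool.Agent.Results.MP_4776b1_ag.AbelianFields
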