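import Mathlib
import Pool.Agent.Run7.h209.PE.JStat

/-!
# Tate conjectures for singular surfaces built from twisted hyperelliptic surfaces over a fixed finite field

Let `k` be a finite field of odd characteristic, `K = k(t)`, `n ≥ 1`, and for `i = 1, ..., n` let
`f_i = x ^ (2 g + 1) + f_{i, 2 g - 1} x ^ (2 g - 1) + ... + f_{i, 0}` be a polynomial over `k[t]` (`g = g_i ≥ 1`,
`N = N_i ≥ 1`) with `deg f_{i, j} ≤ 2 N (2 g + 1 - j)` such that the discriminant of `f_i` is a squarefree polynomial
in `t` and the polynomial over `k` formed by the coefficients of `t ^ (2 N (2 g + 1 - j))` in the `f_{i, j}` is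
irreducible (`InFamily`). Suppose that the discriminants of the `f_i` are pairwise coprime. For a polynomial `D` in `k[t]`,
squarefree and prime to these discriminants, let `X_i = X_{i, D}` be a smooth projective model of the surface

`D(t) y ^ 2 = f_i(x, t)`,

fibred over the `t`-line in hyperelliptic curves of genus `g_i` (elliptic curves if `g_i = 1`). Let `J_i` be the
Jacobian of the generic fibre of `X_i`, and let `2 ^ (d_i(D))` be the order of its 2-Selmer group: the classes in
`H ^ 1 (K, J_i[2])` which are zero in `H ^ 1 (K_v, J_i)` for all places `v` of `K`.

Theorem. Fix `k`, the `f_i` and `u ≠ 0` in `k`; let `D` run through the polynomials as above with leading coefficient `u`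
and degree `m`, and let `m` tend to infinity.

(1) (`each`) For each `D` and each `i` the group `J_i(K)` has no point of order two, and
`2 ^ (d_i(D)) = #(J_i(K) / 2 J_i(K)) #Sha(J_i)[2]`; if `d_i(D) = 0` then `J_i(K)` is uniquely divisible by two and the
2-primary part of the Tate-Shafarevich group of `J_i` is zero.

(2) (`law`) The `d_i(D)` are independent in the limit: the proportion of the `D` with `d_i(D) = d_i` for all `i`
tends to the product of the `limitLaw d_i`, where `limitLaw d` is the number
`∏_{j ≥ 0} (1 + 2 ^ (-j))⁻¹ ∏_{i = 1}^d 2 / (2 ^ i - 1)`.

(3) (`means`) For each function `φ` of at most exponential growth the average of `φ(d_1(D), ..., d_n(D))` tends to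
its expectation for the product law.

(4) (`average`, `small`) The average of `d_1(D) + ⋯ + d_n(D)` tends to `n μ`, `μ = ∑_j 1 / (2 ^ j + 1) = 1.2645...`; for
each function `w` which tends to infinity almost all `D` have `d_1(D) + ⋯ + d_n(D) ≤ w(deg D)`.

(5) (`often`) For all large `m`, for at least the proportion `0.2097 ^ n` of the `D` all the groups `J_i(K)` are
uniquely divisible by two and all the `Sha(J_i)[2 ^ ∞]` are zero.

Consequences, by theorems of Artin, Tate, Milne, Gordon and Jannsen (not formalised). The cycle map
`CH_1(X_i) ⊗ Q_l → H_2(X_i, Q_l(1)) ^ G` is surjective for one prime `l` if and only if it is for all primes and if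
and only if `Sha(J_i)[2 ^ ∞]` is finite; then the eigenvalue `1` is semisimple, so that for `X_i` all the statements
(a), (b) of Q1 and Q2 hold, for all indices. For a variety `X` of dimension at most two, singular or not proper, with
components of dimension two birational to surfaces among the `X_1, ..., X_n`, a resolution is a good proper cover,
and (a) holds for `X`. Hence, `q` fixed and for all genera:

* for a set of `D` of lower density at least `0.2097 ^ n` the statement (a) of Q1 holds, for all indices, for all the
  varieties `X` built from `X_1, ..., X_n` (any glueing, any open part), and (a), (b), Q2 for the `X_i`: the order of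
  `L(X_i, s)` at `s = 1` is minus the rank of `B_1(X_i)`;
* for each `D` there are at most `d_1(D) + ⋯ + d_n(D)` classes in `⊕ H_2(X_i, Q_2(1)) ^ G` which are linearly
  independent modulo the sections and the components of the fibres: on the average at most `1.2645 n`, and at most
  `w(deg D)` for almost all `D`, for each function `w` which tends to infinity, although the dimension of the
  homology grows linearly with `deg D`.

The theorem for one surface is project PRL of helper286, the joint law is project JPL of helper784, with
pieces of many seats (helpers 56, 68, 81, 160, 209, 212, 215, 216, 270, 303, 352, 382, 416, 502, 518, 547, 646, 688,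
704, 711, 760, 779, 781, 803, 811, 824, 847, 875, 886, 908, 957, 973).
-/

set_option autoImplicit false
set_option linter.all false

namespace Pool.Agent.Results.MP_4776b1_ag.SingularTwistedSurfaces

open Polynomial
open Run7.h209.PE (InFamily discriminant)
open Run7.h209.JStat (Statement limitMean)

theorem result {k : Type} [Field k] [Finite k] (h2 : (2 : k) ≠ 0) (K : Type) [Field K]
    [Algebra k[X] K] [IsFractionRing k[X] K] {n : ℕ} (hn : 1 ≤ n) {g N : Fin n → ℕ}
    (hg : ∀ i, 1 ≤ g i) (hN : ∀ i, 1 ≤ N i) {f : Fin n → k[X][X]} (hf : ∀ i, InFamily (g i) (N i) (f i))
    (hc : ∀ i j, i ≠ j → IsCoprime (discriminant (g i) (f i)) (discriminant (g j) (f j)))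
    {u : k} (hu : u ≠ 0) : Statement K g f u ∧ |limitMean - 1.2645| < 0.0001 :=
  Run7.h209.JStat.main h2 K hn hg hN hf hc hu

end Pool.Agent.Results.MP_4776b1_ag.SingularTwistedSurfaces
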