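import Mathlib
import Pool.Agent.Run7.h479.SO.Zeta
import Pool.Agent.Run7.h479.SO.Criteria

/-!
# The Tate conjectures for singular varieties generated by abelian varieties over finite fields whose
slopes on a half orbit do not sum to a sum of prime divisors of the dimension

Over an algebraic closure of the field with `p` elements each abelian variety is isogenous to the
reduction of an abelian variety of CM type (Honda, Tate). So an abelian variety over the field with
`p ^ b` elements is modelled by `RedAV`: a finite product of CM types `(E l, Φ l)` with Weil numbers
in `E l` (the Frobenius endomorphism) that satisfy the formula of Shimura and Taniyama; its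
cohomology of degree `n`, with coefficients in an algebraically closed field `Ω`, consists of the
alternating `n`-forms on `Ω ⊗ H_1`, on which the Frobenius endomorphism acts by the Weil numbers. We
fix an isomorphism `ν` of the algebraic closure of `ℚ_p` with `ℂ`; it defines a `p`-adic valuation of
`ℂ`, with the value one at `p`.

Let `π i` be finitely many Weil numbers for `q = p ^ a` in CM fields `F i` of degree `2 n i`, with
`π i * conj (π i) = q`. They belong to isogeny classes of simple abelian varieties `A i` over the
field with `q` elements. Let `𝒞` (`PowersOf π`) be the class of the abelian varieties `Y` over finite
fields of characteristic `p` each of whose factors is supersingular or has a Frobenius endomorphism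
some power of which is a power of `π i` for some `i`. So `Y` is, over an algebraic closure, isogenous
to a product of powers of the abelian varieties `A i` (of any exponents) and of a supersingular
abelian variety; the class contains all products of powers of its members, and the products of its
members with supersingular abelian varieties. The starting results need one of: large Galois groups,
degrees that are (twice) powers of a prime number, or almost all slope types. Here the degrees are
arbitrary and the Galois groups may be as small as cyclic groups. We assume:

* (`HalfOrbit`) There is a set `O` of complex embeddings of `F i`, one of each pair of complex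
  conjugate embeddings, which is an orbit of a group of automorphisms of `ℂ` that acts on `O`
  through a commutative group. By Chebotarev's density theorem it is enough that some prime number is
  inert in the maximal real subfield of `F i` and splits in `F i` (then one automorphism generates a
  group with such an orbit; this is proved in the file `Criteria.lean`). If `F i` contains an
  imaginary quadratic field `E`, it is enough that some prime number is inert in the maximal real
  subfield (whose normal closure is real, and so linearly disjoint from `E`), and `O` is the set of
  the embeddings that extend a given embedding of `E`.
* (`GoodSlopes`) We write `cdev ν a x φ = 2 ord_p (x) - a` for the deviation of the slope of `x` at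
  the embedding `φ` from the middle, where an isomorphism `ν` of the algebraic closure of `ℚ_p` with
  `ℂ` makes `φ` a `p`-adic embedding. For some `ν` the sum of the deviations of `π i` over `O` is not
  zero; and for some `ν` the deviations of `π i` on `O` are `b w + c` with real numbers `b ≠ 0`, `c`
  and natural numbers `w`, such that **the sum `k` of the numbers `w` over `O` is not a sum of prime
  divisors of `n i`** (with repetitions; `0` is the empty sum).
* (`Separated`, only if there are several fields) For `i ≠ i'` some automorphism acts on the complex
  embeddings of each of the fields as `1` or as the complex conjugation, as `1` for `F i` and as the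
  complex conjugation for `F i'`.

For instance let there be one field and let the slopes be `λ` and `1 - λ` only, `λ ≠ 1/2` (`λ = 0` is
the ordinary case). Then `w` can be the characteristic function of the set of the embeddings in `O`
with slope `1 - λ`, and `k` is the number of these embeddings; by the same argument for the
complement, it is enough that `k` or `n - k` is not a sum of prime divisors of `n` (and `2 k ≠ n`).
For `n = 15` the only signatures `(k, n - k)` which are excluded are those with `k` or `n - k` equal
to `0, 3, 5, 6`. In general the condition is true if `0 < k` is less than all prime divisors of `n`,
and if `k = r s - r - s` and `n` is divisible by no primes other than `r` and `s` (proved in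
`Criteria.lean`). Conversely, the condition cannot be improved for the cyclic group of order `n`: if
`k` is a sum of prime divisors of `n` then it is the sum of the values of a function `w` which is a
sum of characteristic functions of cosets of subgroups of prime order, and the translates of this
`w` do not span the functions on the group.

`Homology Ω V` are data of motivic homology `M X i j = H_i^M(X, ℚ(j)) = CH_j(X, i - 2 j) ⊗ ℚ` and of
`ℓ`-adic homology `E X i j = H_i(X, ℚ_ℓ(j))` (coefficients extended to `Ω`) of schemes `X` of finite
type over a finite field (the elements of `V`), with the Frobenius and the regulator. Let `𝒢` be the
smallest class (`Generated`) of such schemes that contains those with the homology groups of abelian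
varieties in `𝒞` (`IsAbelianPowersOf`), that is closed under direct summands of finite sums of twists
of motives, and that contains all of a closed subscheme `Z` of `X`, `X` and `X ∖ Z` if it contains
two of them. It contains for instance all products of varieties in `𝒞`, all products of curves with
Jacobians in `𝒞` and of open subsets of such curves, symmetric powers of them, and the singular and
the open varieties with a stratification by such varieties.

Let `𝒮` (`Spread`) be the smallest class of schemes that contains `𝒢`, all open subschemes (with an
arbitrary complement) and all images under proper morphisms of its members, the schemes that are the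
union of a closed and an open member, and the schemes whose motives are direct summands of sums of
twists of motives of members. For example it contains all (singular, open, reducible) varieties
dominated by varieties in `𝒢`.
**Then** (`SingularTate`)

* (Q1 (a)) for all `X` in `𝒮` and all `i` the map `cl_i ⊗ Ω` is surjective onto the space of the
  invariant elements of `H_(2 i)(X, ℚ_ℓ(i)) ⊗ Ω`, and the eigenvalue one is semisimple (`IsOnto T X i`);
* (Q1 (b)) for all `X` in `𝒢` and all `i` the group `CH_i(X) ⊗ ℚ` has finite dimension and `cl_i`
  induces an isomorphism of `CH_i(X) ⊗ Ω = B_i(X) ⊗ Ω` with the space of the invariant elements
  (`IsIso T X i`);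
* (Q2) for all `X` in `𝒢` and all `i ≥ 0` the order at `s = i` of
  `L(X, s) = det (1 - F q ^ (-s) | H^(2 i)_c(X, ℚ_ℓ)) ^ (-1)` is `- rank CH_i(X) = - rank B_i(X)`.

Here `k` is finite, so that `dim_a (k) = 0`, `U_0 = Spec k` and `L(X, s)` has one Euler factor; its
coefficients are moved to `ℂ` by an arbitrary homomorphism `τ : Ω → ℂ`. `IsCompactCoh T X q A` says
that `A` is the cohomology with compact support of `X`, with the operation of the Frobenius: the
group `H_i(X, ℚ_ℓ(j))` is the dual of `H^i_c(X, ℚ_ℓ(j))`.

Properties of the theory of cycles that are used for the abelian varieties (`IsChow`,
`IsMotivic`): Poincaré duality, the formal properties of correspondences, the nilpotence of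
homologically trivial correspondences (Kimura), the operation of the Frobenius endomorphism on higher
Chow groups, the vanishing of the higher rational `K`-groups of a finite field (Quillen), and the
algebraicity of the classes in `Alg` (of which only products of classes of divisors matter here,
theorem of Tate). The passage from the Tate conjecture to all degrees and to the class `Generated` is
due to Soulé, Geisser, Kahn and Jannsen; it was formalized in the starting files and by helper117
(MP_2ce3e7_ag GeneratedByAbelian).

The proof. Suppose that the product of some powers `φ (π i) ^ m (i, φ)` is a power of `q = p ^ a`, up
to a root of unity. Let `c (i, φ) = m (i, φ) - m (i, conj φ)`. The `p`-adic valuations of the images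
under the automorphisms `σ` give `∑ c (i, φ) * cdev (σ φ) = 0`. `Separated` and Dedekind's theorem on
the linear independence of characters (of the group of the automorphisms acting as `± 1`) give these
relations for every `i` separately. The sum over the orbit `O` and the first slope condition give
`∑_O c = 0`, and then the second slope condition gives `∑_O c (φ) w (σ φ) = 0` for all `σ` in the
group. The commutative transitive group `B` of permutations of `O` is simply transitive, so `w` is a
function on the group `B`, and if `c ≠ 0`, then a Fourier coefficient `∑ w (b) ψ (b)` of `w` for a
character `ψ` of `B` is zero. Its terms are `k` roots of unity of order dividing `n`, and by the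
theorem of Lam and Leung (1996) on vanishing sums of roots of unity the number `k` of terms is a sum
of prime divisors of `n`, a contradiction. The theorem of Lam and Leung is proved in the files `LL`.
So all relations between the Frobenius eigenvalues of `Y` are generated by those of the complex
conjugate pairs and of the supersingular factors.
-/

set_option autoImplicit false

namespace Pool.Agent.Results.MP_4776b1_ag.VanishingSums

open NumberField Module Pool.Agent.W495.TA Pool.Agent.Run7.h479.SO
  Pool.Agent.W495.FM

/-- Q1 (a) for the class `Spread`, and Q1 (b) and Q2 for the class `Generated` of schemes over the
field with `q` elements. -/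
def SingularTate {p : ℕ} [Fact p.Prime] (ν : PadicAlgCl p ≃+* ℂ) {ι : Type} {F : ι → Type}
    [∀ i, Field (F i)] (π : ∀ i, F i) : Prop :=
  ∀ (Ω : Type) [Field Ω] [IsAlgClosed Ω] [CharZero Ω] (V : Type) (T : Homology Ω V),
    IsHomology T → HasWeights T →
      (∀ X : V, Spread T (Generated T (IsAbelianPowersOf ν π T)) X → ∀ i : ℤ, IsOnto T X i) ∧
      ∀ X : V, Generated T (IsAbelianPowersOf ν π T) X →
        (∀ i : ℤ, Module.Finite ℚ (T.M X (2 * i) i) ∧ IsIso T X i) ∧
        ∀ (q : ℕ) (A : CompactCoh Ω) (τ : Ω →+* ℂ), 1 < q → IsCompactCoh T X q A → ∀ i : ℕ,
          meromorphicOrderAt (fun s => (eulerFactor A τ q (2 * i) s)⁻¹) (i : ℂ) =
            ((-(finrank ℚ (T.M X (2 * i) i) : ℤ) : ℤ) : WithTop ℤ)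

/-- **The Tate conjectures for singular varieties generated by abelian varieties over finite
fields whose slopes on a half orbit do not sum to a sum of prime divisors of the dimension.** -/
theorem result (p : ℕ) [Fact p.Prime] (ν : PadicAlgCl p ≃+* ℂ) (a : ℕ) (ha : 0 < a)
    (ι : Type) [Fintype ι] (F : ι → Type) [∀ i, Field (F i)] [∀ i, NumberField (F i)]
    [∀ i, IsCMField (F i)] (π : ∀ i, F i)
    (hweil : ∀ i, π i * IsCMField.complexConj (F i) (π i) = (p : F i) ^ a)
    (hsep : Separated F) (hgood : ∀ i, GoodSlopes p a (π i))
    :
    SingularTate ν π :=
by
  intro Ω _ _ _ V T hT hW
  refine ⟨fun _ hX i => onto_good ha hweil hsep hgood hT hW hX i, fun X hX => ?_⟩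
  have hTB := tb_good ha hweil hsep hgood hT hX
  refine ⟨fun i => ⟨finite_M hT hTB _ _, hTB.iso hT i⟩, fun q A τ hq hA i => ?_⟩
  obtain ⟨h1, h2⟩ := order_factor hT hq hA hTB τ (2 * i) i
  have h3 := meromorphicOrderAt_inv (f := eulerFactor A τ q (2 * i)) (x := ((i : ℤ) : ℂ))
  rw [h2] at h3
  push_cast at h3
  exact h3

end Pool.Agent.Results.MP_4776b1_ag.VanishingSums
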